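import Pool.Agent.J6H9.EU.Stm

/-!
# Module EU-MED: the median trick
-/

set_option autoImplicit false

namespace Pool.Agent.J6H3.EUMed

open Filter Topology Pool.Agent.J6H9.EU

/-- the lower part of a finite set with respect to an injective function -/
theorem split (φ : ℕ → ℕ) (hφ : Function.Injective φ) (S : Finset ℕ) :
    ∀ j ≤ S.card, ∃ L ⊆ S, L.card = j ∧ ∀ a ∈ L, ∀ b ∈ S, b ∉ L → φ a < φ b := by
  intro j
  induction j with
  | zero => exact fun _ => ⟨∅, Finset.empty_subset _, rfl, by simp⟩
  | succ j ih =>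
    intro hj
    obtain ⟨L, hL, hLc, hLp⟩ := ih (by omega)
    have hne : (S \ L).Nonempty := by
      rw [← Finset.card_pos, Finset.card_sdiff_of_subset hL]
      omega
    obtain ⟨x, hx, hmin⟩ := Finset.exists_min_image (S \ L) φ hne
    rw [Finset.mem_sdiff] at hx
    refine ⟨insert x L, ?_, ?_, ?_⟩
    · intro y hy
      rw [Finset.mem_insert] at hy
      rcases hy with rfl | hy
      · exact hx.1
      · exact hL hy
    · rw [Finset.card_insert_of_notMem hx.2, hLc]
    · intro a ha b hb hbL
      rw [Finset.mem_insert, not_or] at hbL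
      rw [Finset.mem_insert] at ha
      rcases ha with rfl | ha
      · refine lt_of_le_of_ne (hmin b (Finset.mem_sdiff.2 ⟨hb, hbL.2⟩)) ?_
        intro h
        exact hbL.1 (hφ h).symm
      · exact hLp a ha b hb hbL.2

theorem st_mono (d : ℕ → ℕ) (n n' : ℕ) (h : n < n') : st d n + d n ≤ st d n' := by
  have h1 : st d n + d n = st d (n + 1) := by
    unfold st
    rw [Finset.sum_range_succ]
  rw [h1]
  exact Finset.sum_le_sum_of_subset (Finset.range_mono h)

theorem D_unique (d : ℕ → ℕ) (n n' x : ℕ) (h : x ∈ D d n) (h' : x ∈ D d n') : n = n' := by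
  unfold D at h h'
  rw [Set.mem_Ico] at h h'
  rcases lt_trichotomy n n' with h1 | h1 | h1
  · have := st_mono d n n' h1
    omega
  · exact h1
  · have := st_mono d n' n h1
    omega

theorem main : S_MED := by
  classical
  intro d hd hdt hK φ k M
  -- large indices
  obtain ⟨N0, hN0⟩ := eventually_atTop.1 (hdt.eventually (eventually_ge_atTop (2 * (k + 12))))
  obtain ⟨s, hs⟩ := hK (max M N0 + (k + 4))
  have hEfin : {n | s ≤ d n ∧ d n < 2 * s}.Finite := Set.finite_of_ncard_pos (by omega)
  set E : Finset ℕ := hEfin.toFinset with hE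
  have hEcard : {n | s ≤ d n ∧ d n < 2 * s}.ncard = E.card := Set.ncard_eq_toFinset_card _ hEfin
  have hE2 : k + 4 < (E.filter (fun n => max M N0 ≤ n)).card := by
    have h1 : E.card = (E.filter (fun n => max M N0 ≤ n)).card +
        (E.filter (fun n => ¬ max M N0 ≤ n)).card :=
      (Finset.card_filter_add_card_filter_not (fun n => max M N0 ≤ n)).symm
    have h2 : (E.filter (fun n => ¬ max M N0 ≤ n)).card ≤ max M N0 := by
      have h3 : E.filter (fun n => ¬ max M N0 ≤ n) ⊆ Finset.range (max M N0) := by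
        intro n hn
        rw [Finset.mem_filter] at hn
        rw [Finset.mem_range]
        omega
      have := Finset.card_le_card h3
      rwa [Finset.card_range] at this
    omega
  obtain ⟨N, hNsub, hNcard⟩ := Finset.exists_subset_card_eq hE2.le
  have hNprop : ∀ n ∈ N, max M N0 ≤ n ∧ s ≤ d n ∧ d n < 2 * s := by
    intro n hn
    have h1 := hNsub hn
    rw [Finset.mem_filter, hE, Set.Finite.mem_toFinset] at h1
    exact ⟨h1.2, h1.1⟩
  have hNne : N.Nonempty := by
    rw [← Finset.card_pos]
    omega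
  have hs12 : k + 12 < s := by
    obtain ⟨n, hn⟩ := hNne
    have h1 := hNprop n hn
    have h2 := hN0 n (le_trans (le_max_right _ _) h1.1)
    omega
  -- the halves
  have hsplit : ∀ n, ∃ L ⊆ Finset.Ico (st d n) (st d n + d n), L.card = d n / 2 ∧
      ∀ a ∈ L, ∀ b ∈ Finset.Ico (st d n) (st d n + d n), b ∉ L → φ a < φ b := by
    intro n
    apply split φ φ.injective
    rw [Nat.card_Ico]
    omega
  choose L hLsub hLcard hLlt using hsplit
  set H : ℕ → Finset ℕ := fun n => Finset.Ico (st d n) (st d n + d n) \ L n with hH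
  have hHcard : ∀ n, (H n).card = d n - d n / 2 := by
    intro n
    rw [hH]
    simp only
    rw [Finset.card_sdiff_of_subset (hLsub n), hLcard, Nat.card_Ico]
    omega
  have hHne : ∀ n, (H n).Nonempty := by
    intro n
    rw [← Finset.card_pos, hHcard]
    have := hd n
    omega
  have hmin : ∀ n, ∃ e ∈ H n, ∀ c ∈ H n, φ e ≤ φ c := fun n =>
    Finset.exists_min_image (H n) φ (hHne n)
  choose e he hemin using hmin
  obtain ⟨m, hm, hmmax⟩ := Finset.exists_max_image N (fun n => φ (e n)) hNne
  have hLH : ∀ n ∈ N, ∀ b ∈ L n, ∀ c ∈ H m, φ b < φ c := by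
    intro n hn b hb c hc
    have h1 := he n
    rw [hH] at h1
    simp only at h1
    rw [Finset.mem_sdiff] at h1
    exact lt_of_lt_of_le (hLlt n b hb (e n) h1.1 h1.2) ((hmmax n hn).trans (hemin m c hc))
  -- the number t
  set t : ℕ := s / (k + 4) + 1 with ht
  have ht1 : ∀ n ∈ N, t ≤ (L n).card := by
    intro n hn
    rw [hLcard]
    have h1 := (hNprop n hn).2.1
    have h2 : s / (k + 4) ≤ s / 4 := Nat.div_le_div_left (by omega) (by norm_num)
    omega
  have hsub : ∀ n, ∃ L' ⊆ L n, n ∈ N → L'.card = t := by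
    intro n
    by_cases hn : n ∈ N
    · obtain ⟨L', hL', hc⟩ := Finset.exists_subset_card_eq (ht1 n hn)
      exact ⟨L', hL', fun _ => hc⟩
    · exact ⟨∅, Finset.empty_subset _, fun h => absurd h hn⟩
  choose L' hL'sub hL'card using hsub
  have hLD : ∀ n x, x ∈ L' n → x ∈ D d n := by
    intro n x hx
    have h1 := hLsub n (hL'sub n hx)
    rw [Finset.mem_Ico] at h1
    exact h1
  have hHD : ∀ n x, x ∈ H n → x ∈ D d n := by
    intro n x hx
    rw [hH] at hx
    simp only at hx
    rw [Finset.mem_sdiff, Finset.mem_Ico] at hx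
    exact hx.1
  have hBcard : (N.biUnion L').card = (k + 4) * t := by
    rw [Finset.card_biUnion, Finset.sum_congr rfl (fun n hn => hL'card n hn), Finset.sum_const,
      hNcard, smul_eq_mul]
    intro n hn n' hn' hne
    change Disjoint (L' n) (L' n')
    rw [Finset.disjoint_left]
    intro x hx hx'
    exact hne (D_unique d n n' x (hLD n x hx) (hLD n' x hx'))
  refine ⟨N, N.biUnion L', H m, ?_, ?_, ?_, ?_, ?_, ?_, m, hm, ?_⟩
  · intro n hn
    exact (le_max_left _ _).trans (hNprop n hn).1
  · intro x hx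
    rw [Finset.mem_biUnion] at hx
    obtain ⟨n, hn, hx⟩ := hx
    exact ⟨n, hn, hLD n x hx⟩
  · intro x hx
    exact ⟨m, hm, hHD m x hx⟩
  · rw [hBcard, hHcard]
    have h1 : s < (k + 4) * (s / (k + 4) + 1) := Nat.lt_mul_div_succ s (by omega)
    have h2 := (hNprop m hm).2.2
    rw [ht]
    omega
  · intro b hb c hc
    rw [Finset.mem_biUnion] at hb
    obtain ⟨n, hn, hb⟩ := hb
    exact hLH n hn b (hL'sub n hb) c hc
  · intro n
    have hkpos : (0 : ℝ) < (k : ℝ) + 1 := by positivity
    by_cases hn : n ∈ N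
    · have h1 : ((N.biUnion L' : Finset ℕ) : Set ℕ) ∩ D d n ⊆ (L' n : Set ℕ) := by
        rintro x ⟨hx1, hx2⟩
        rw [Finset.mem_coe, Finset.mem_biUnion] at hx1
        obtain ⟨n', hn', hx1⟩ := hx1
        have h2 := D_unique d n' n x (hLD n' x hx1) hx2
        rw [← h2]
        exact hx1
      have h2 : (((N.biUnion L' : Finset ℕ) : Set ℕ) ∩ D d n).ncard ≤ t := by
        refine (Set.ncard_le_ncard h1 (Finset.finite_toSet _)).trans ?_
        rw [Set.ncard_coe_finset, hL'card n hn]
      have h3 : t * (k + 1) ≤ 2 * d n := by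
        have h4 : s / (k + 4) * (k + 4) ≤ s := Nat.div_mul_le_self _ _
        have h5 := (hNprop n hn).2.1
        have h6 : s / (k + 4) * (k + 1) ≤ s / (k + 4) * (k + 4) := Nat.mul_le_mul_left _ (by omega)
        have h7 : t * (k + 1) = s / (k + 4) * (k + 1) + (k + 1) := by
          rw [ht]
          ring
        omega
      rw [le_div_iff₀ hkpos]
      have h4 : (((N.biUnion L' : Finset ℕ) : Set ℕ) ∩ D d n).ncard * (k + 1) ≤ 2 * d n :=
        (Nat.mul_le_mul_right _ h2).trans h3
      exact_mod_cast h4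
    · have h1 : ((N.biUnion L' : Finset ℕ) : Set ℕ) ∩ D d n = ∅ := by
        apply Set.eq_empty_of_forall_notMem
        rintro x ⟨hx1, hx2⟩
        rw [Finset.mem_coe, Finset.mem_biUnion] at hx1
        obtain ⟨n', hn', hx1⟩ := hx1
        have h2 := D_unique d n' n x (hLD n' x hx1) hx2
        exact hn (h2 ▸ hn')
      rw [h1, Set.ncard_empty, Nat.cast_zero]
      positivity
  · have h1 : ((H m : Finset ℕ) : Set ℕ) ∩ D d m = (H m : Set ℕ) := by
      apply Set.inter_eq_left.2
      intro x hx
      exact hHD m x hx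
    rw [h1, Set.ncard_coe_finset, hHcard]
    have h2 : d m ≤ 2 * (d m - d m / 2) := by omega
    have h3 : (d m : ℝ) ≤ 2 * ((d m - d m / 2 : ℕ) : ℝ) := by exact_mod_cast h2
    linarith

end Pool.Agent.J6H3.EUMed
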